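import Mathlib

set_option autoImplicit false
open Topology

namespace Pool.Agent.Results.MP_091ced_gt.SecondDerivedClosed

/-- In every T0 space the second derived set of any subset is closed. Here the derived set of `A`
is written out as in the problem file: the points `x` lying in the closure of `A \ {x}`. -/
theorem result :
    ∀ (X : Type*) [TopologicalSpace X] [T0Space X] (A : Set X),
      IsClosed {x : X | x ∈ closure ({y : X | y ∈ closure (A \ {y})} \ {x})} := by
  intro X _ _ A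
  apply isClosed_of_closure_subset
  intro x hx
  by_contra hxn
  simp only [Set.mem_setOf_eq, mem_closure_iff, not_forall] at hxn
  obtain ⟨U, hU, hxU, hUB⟩ := hxn
  have hUB' : ∀ z, z ∈ U → z ∈ closure (A \ {z}) → z = x := by
    intro z hzU hz
    by_contra hne
    apply hUB
    refine ⟨z, hzU, ?_, hne⟩
    simpa only [Set.mem_setOf_eq, mem_closure_iff] using hz
  obtain ⟨y, hyU, hy⟩ := mem_closure_iff.1 hx U hU hxU
  have hy' : y ∈ closure ({y : X | y ∈ closure (A \ {y})} \ {y}) := hy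
  have hyx : y ≠ x := by
    rintro rfl
    obtain ⟨z, hzU, hz, hne⟩ := mem_closure_iff.1 hy' U hU hyU
    exact hne (hUB' z hzU hz)
  have h1 : ∀ V, IsOpen V → y ∈ V → x ∈ V ∧ x ∈ closure (A \ {x}) := by
    intro V hV hyV
    obtain ⟨z, ⟨hzV, hzU⟩, hz, _⟩ := mem_closure_iff.1 hy' (V ∩ U) (hV.inter hU) ⟨hyV, hyU⟩
    have := hUB' z hzU hz
    subst this
    exact ⟨hzV, hz⟩
  have hxB : x ∈ closure (A \ {x}) := (h1 _ isOpen_univ trivial).2
  have hyB : y ∉ closure (A \ {y}) := fun h => hyx (hUB' y hyU h)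
  simp only [mem_closure_iff, not_forall] at hyB
  obtain ⟨W, hW, hyW, hWA⟩ := hyB
  have h2 : ∀ V, IsOpen V → x ∈ V → y ∈ V := by
    intro V hV hxV
    obtain ⟨z, ⟨hzV, hzW⟩, hzA, _⟩ :=
      mem_closure_iff.1 hxB (V ∩ W) (hV.inter hW) ⟨hxV, (h1 W hW hyW).1⟩
    by_cases hzy : z = y
    · exact hzy ▸ hzV
    · exact absurd ⟨z, hzW, hzA, hzy⟩ hWA
  apply hyx
  apply Inseparable.eq
  rw [inseparable_iff_forall_isOpen]
  intro V hV
  exact ⟨fun h => (h1 V hV h).1, h2 V hV⟩

end Pool.Agent.Results.MP_091ced_gt.SecondDerivedClosed
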